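import Pool.Agent.TH83.DC.SDefs

set_option autoImplicit false

namespace Pool.Agent.TH150.DC2351

open Finset
open Pool.Agent.TH83.SQ (cls dil)
open Pool.Agent.TH83.DC
open scoped Pointwise Classical

theorem jn_pos (Q : ℤ) {X B : Finset ℤ} {w : ℤ} (p : ℤ × ℤ) (hp : p ∈ X ×ˢ B)
    (h : Q ∣ p.1 + p.2 - w) : 0 < jn Q X B w := by
  unfold jn
  exact Finset.card_pos.mpr ⟨p, Finset.mem_filter.mpr ⟨hp, h⟩⟩

theorem jn_congr (Q : ℤ) (X B : Finset ℤ) {w z : ℤ} (h : Q ∣ z - w) :
    jn Q X B z = jn Q X B w := by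
  unfold jn
  congr 1
  apply Finset.filter_congr
  intro p _
  constructor
  · intro h1
    have := dvd_add h1 h
    have e : p.1 + p.2 - z + (z - w) = p.1 + p.2 - w := by ring
    rwa [e] at this
  · intro h1
    have := dvd_sub h1 h
    have e : p.1 + p.2 - w - (z - w) = p.1 + p.2 - z := by ring
    rwa [e] at this

theorem sum_ratio (Q : ℤ) (X B : Finset ℤ) :
    ∑ p ∈ X ×ˢ B, (((X + B).filter fun w => Q ∣ p.1 + p.2 - w).card : ℝ) /
      (jn Q X B (p.1 + p.2) : ℝ) = ((X + B).card : ℝ) := by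
  have h1 : ∀ p ∈ X ×ˢ B, (((X + B).filter fun w => Q ∣ p.1 + p.2 - w).card : ℝ) /
      (jn Q X B (p.1 + p.2) : ℝ) =
      ∑ w ∈ X + B, if Q ∣ p.1 + p.2 - w then (1 : ℝ) / (jn Q X B w : ℝ) else 0 := by
    intro p _
    rw [← Finset.sum_filter, Finset.card_eq_sum_ones, Nat.cast_sum, Finset.sum_div]
    apply Finset.sum_congr rfl
    intro w hw
    rw [jn_congr Q X B (Finset.mem_filter.mp hw).2]
    simp
  rw [Finset.sum_congr rfl h1, Finset.sum_comm, Finset.card_eq_sum_ones, Nat.cast_sum]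
  apply Finset.sum_congr rfl
  intro w hw
  rw [← Finset.sum_filter, Finset.sum_const, nsmul_eq_mul]
  obtain ⟨x, hx, b, hb, e⟩ := Finset.mem_add.mp hw
  have hpos : 0 < jn Q X B w := jn_pos Q (x, b) (Finset.mk_mem_product hx hb)
    (by simp [e])
  have : (((X ×ˢ B).filter fun p => Q ∣ p.1 + p.2 - w).card : ℝ) = (jn Q X B w : ℝ) := rfl
  rw [this]
  have h2 : (jn Q X B w : ℝ) ≠ 0 := by exact_mod_cast hpos.ne'
  field_simp
  simp

theorem gibbs (Q : ℤ) {X B : Finset ℤ} (hX : X.Nonempty) (hB : B.Nonempty) :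
    jent Q X B + (∑ x ∈ X, ∑ b ∈ B, Real.log ((cls Q X x + cls Q B b).card : ℝ)) /
      (X.card * B.card) ≤ Real.log ((X + B).card : ℝ) := by
  have hXc : (0 : ℝ) < X.card := by exact_mod_cast hX.card_pos
  have hBc : (0 : ℝ) < B.card := by exact_mod_cast hB.card_pos
  have hWc : (0 : ℝ) < (X + B).card := by exact_mod_cast (hX.add hB).card_pos
  have hN : (0 : ℝ) < (X.card : ℝ) * B.card := mul_pos hXc hBc
  have key : ∀ p ∈ X ×ˢ B,
      Real.log ((X.card : ℝ) * B.card / jn Q X B (p.1 + p.2)) +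
        Real.log ((cls Q X p.1 + cls Q B p.2).card : ℝ) ≤
      Real.log ((X + B).card : ℝ) +
        ((X.card : ℝ) * B.card / (X + B).card *
          ((((X + B).filter fun w => Q ∣ p.1 + p.2 - w).card : ℝ) /
            (jn Q X B (p.1 + p.2) : ℝ)) - 1) := by
    intro p hp
    obtain ⟨hx, hb⟩ := Finset.mem_product.mp hp
    have hJ : (0 : ℝ) < jn Q X B (p.1 + p.2) := by
      exact_mod_cast jn_pos Q p hp (by simp)
    have hcl : (0 : ℝ) < (cls Q X p.1 + cls Q B p.2).card := by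
      have : (cls Q X p.1 + cls Q B p.2).Nonempty :=
        ⟨p.1 + p.2, Finset.add_mem_add (Finset.mem_filter.mpr ⟨hx, by simp⟩)
          (Finset.mem_filter.mpr ⟨hb, by simp⟩)⟩
      exact_mod_cast this.card_pos
    have hsub : cls Q X p.1 + cls Q B p.2 ⊆ (X + B).filter fun w => Q ∣ p.1 + p.2 - w := by
      intro w hw
      obtain ⟨x, hx', b, hb', e⟩ := Finset.mem_add.mp hw
      obtain ⟨hx1, hx2⟩ := Finset.mem_filter.mp hx'
      obtain ⟨hb1, hb2⟩ := Finset.mem_filter.mp hb'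
      refine Finset.mem_filter.mpr ⟨Finset.mem_add.mpr ⟨x, hx1, b, hb1, e⟩, ?_⟩
      have h3 := dvd_neg.mpr (dvd_add hx2 hb2)
      have e2 : -(x - p.1 + (b - p.2)) = p.1 + p.2 - w := by rw [← e]; ring
      rwa [e2] at h3
    have hcard : ((cls Q X p.1 + cls Q B p.2).card : ℝ) ≤
        (((X + B).filter fun w => Q ∣ p.1 + p.2 - w).card : ℝ) := by
      exact_mod_cast Finset.card_le_card hsub
    have hWz : (0 : ℝ) < (((X + B).filter fun w => Q ∣ p.1 + p.2 - w).card : ℝ) :=
      lt_of_lt_of_le hcl hcard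
    have hlog1 : Real.log ((cls Q X p.1 + cls Q B p.2).card : ℝ) ≤
        Real.log (((X + B).filter fun w => Q ∣ p.1 + p.2 - w).card : ℝ) :=
      Real.log_le_log hcl hcard
    have hlog2 := Real.log_le_sub_one_of_pos
      (x := (X.card : ℝ) * B.card / (X + B).card *
          ((((X + B).filter fun w => Q ∣ p.1 + p.2 - w).card : ℝ) /
            (jn Q X B (p.1 + p.2) : ℝ))) (by positivity)
    have hlog3 : Real.log ((X.card : ℝ) * B.card / (X + B).card *
          ((((X + B).filter fun w => Q ∣ p.1 + p.2 - w).card : ℝ) /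
            (jn Q X B (p.1 + p.2) : ℝ))) =
        Real.log ((X.card : ℝ) * B.card / jn Q X B (p.1 + p.2)) +
          Real.log (((X + B).filter fun w => Q ∣ p.1 + p.2 - w).card : ℝ) -
          Real.log ((X + B).card : ℝ) := by
      rw [Real.log_mul (by positivity) (by positivity), Real.log_div hN.ne' hWc.ne',
        Real.log_div hWz.ne' hJ.ne', Real.log_div hN.ne' hJ.ne']
      ring
    linarith
  have hsum := Finset.sum_le_sum key
  rw [Finset.sum_add_distrib, Finset.sum_add_distrib, Finset.sum_sub_distrib,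
    ← Finset.mul_sum, sum_ratio, Finset.sum_const, Finset.sum_const, Finset.card_product,
    nsmul_eq_mul, nsmul_eq_mul, Nat.cast_mul, div_mul_cancel₀ _ hWc.ne', mul_one, sub_self,
    add_zero, Finset.sum_product, Finset.sum_product] at hsum
  unfold jent
  rw [← add_div, div_le_iff₀ hN]
  linarith

end Pool.Agent.TH150.DC2351
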