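import Mathlib

/-!
# Separability over a subfield generated by one element, in terms of polynomials (for QQ-B)
-/

set_option autoImplicit false

namespace Pool.Agent.TH150.QB

open Polynomial

section gen

variable {F S : Type*} [CommRing F] [CommRing S] [IsDomain S] (io : F →+* S)

/-- evaluation -/
noncomputable def ev (z : S) : Polynomial F →+* S := Polynomial.eval₂RingHom io z

/-- `u` is separable over the field generated by `io F` and `z` -/
def Sp (z u : S) : Prop :=
  ∃ G : Polynomial (Polynomial F), (G.map (ev io z)).eval u = 0 ∧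
    (Polynomial.derivative (G.map (ev io z))).eval u ≠ 0

/-- `u` is algebraic over the field generated by `io F` and `z` -/
def Al (z u : S) : Prop :=
  ∃ G : Polynomial (Polynomial F), G.map (ev io z) ≠ 0 ∧ (G.map (ev io z)).eval u = 0

/-- the embedding in the field of fractions -/
noncomputable abbrev ii : S →+* FractionRing S := algebraMap S (FractionRing S)

theorem ii_inj : Function.Injective (ii (S := S)) := IsFractionRing.injective S (FractionRing S)

/-- the field generated by `io F` and `z` -/
noncomputable def MM (z : S) : Subfield (FractionRing S) :=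
  Subfield.closure ((((ii (S := S)).comp (ev io z)).range : Subring (FractionRing S)) :
    Set (FractionRing S))

theorem ev_mem (z : S) (A : Polynomial F) : ii (ev io z A) ∈ MM io z :=
  Subfield.subset_closure ⟨A, rfl⟩

theorem mem_MM {z : S} {x : FractionRing S} (hx : x ∈ MM io z) :
    ∃ A B : Polynomial F, ev io z B ≠ 0 ∧ ii (ev io z B) * x = ii (ev io z A) := by
  unfold MM at hx
  rw [Subfield.mem_closure_iff] at hx
  obtain ⟨y, hy, w, hw, hyw⟩ := hx
  rw [Subring.closure_eq] at hy hw
  obtain ⟨A, rfl⟩ := hy
  obtain ⟨B, rfl⟩ := hw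
  simp only [RingHom.comp_apply] at hyw
  by_cases hB : ev io z B = 0
  · refine ⟨0, 1, by simp, ?_⟩
    rw [hB, map_zero, div_zero] at hyw
    rw [← hyw]
    simp
  · refine ⟨A, B, hB, ?_⟩
    have hB' : ii (ev io z B) ≠ 0 := fun h => hB (ii_inj (by rw [h, map_zero]))
    rw [← hyw]
    field_simp

/-- evaluation with values in the field -/
noncomputable def evM (z : S) : Polynomial F →+* MM io z :=
  ((ii (S := S)).comp (ev io z)).codRestrict (MM io z) (ev_mem io z)

theorem subtype_evM (z : S) : (MM io z).subtype.comp (evM io z) = (ii (S := S)).comp (ev io z) := by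
  ext <;> rfl

theorem map_evM (z : S) (G : Polynomial (Polynomial F)) :
    (G.map (evM io z)).map (MM io z).subtype = (G.map (ev io z)).map ii := by
  rw [Polynomial.map_map, Polynomial.map_map, subtype_evM]

theorem clear (z : S) (P : Polynomial (MM io z)) :
    ∃ (B : Polynomial F) (G : Polynomial (Polynomial F)), ev io z B ≠ 0 ∧
      (G.map (ev io z)).map ii = Polynomial.C (ii (ev io z B)) * P.map (MM io z).subtype := by
  induction P using Polynomial.induction_on with
  | C a =>
    obtain ⟨A, B, hB, hAB⟩ := mem_MM io a.2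
    refine ⟨B, Polynomial.C A, hB, ?_⟩
    rw [Polynomial.map_C, Polynomial.map_C, Polynomial.map_C, ← Polynomial.C_mul]
    congr 1
    exact hAB.symm
  | add P Q hP hQ =>
    obtain ⟨B1, G1, hB1, h1⟩ := hP
    obtain ⟨B2, G2, hB2, h2⟩ := hQ
    refine ⟨B1 * B2, Polynomial.C B2 * G1 + Polynomial.C B1 * G2, ?_, ?_⟩
    · rw [map_mul]; exact mul_ne_zero hB1 hB2
    · simp only [Polynomial.map_add, Polynomial.map_mul, Polynomial.map_C, h1, h2, map_mul]
      ring
  | monomial n a hP =>
    obtain ⟨B, G, hB, h⟩ := hP
    refine ⟨B, G * Polynomial.X, hB, ?_⟩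
    rw [Polynomial.map_mul, Polynomial.map_mul, h, Polynomial.map_X, Polynomial.map_X,
      pow_succ, ← mul_assoc, Polynomial.map_mul (p := Polynomial.C a * Polynomial.X ^ n),
      Polynomial.map_X, mul_assoc]

theorem sp_of_poly {z u : S} (P : Polynomial (MM io z))
    (h0 : (P.map (MM io z).subtype).eval (ii u) = 0)
    (h1 : (Polynomial.derivative (P.map (MM io z).subtype)).eval (ii u) ≠ 0) : Sp io z u := by
  obtain ⟨B, G, hB, h⟩ := clear io z P
  have hB' : ii (ev io z B) ≠ 0 := fun h => hB (ii_inj (by rw [h, map_zero]))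
  refine ⟨G, ?_, ?_⟩
  · apply ii_inj
    rw [map_zero, ← Polynomial.eval_map_apply, h, Polynomial.eval_mul, h0, mul_zero]
  · intro h2
    have h3 := congrArg ii h2
    rw [map_zero, ← Polynomial.eval_map_apply, ← Polynomial.derivative_map, h,
      Polynomial.derivative_C_mul, Polynomial.eval_mul, Polynomial.eval_C] at h3
    exact mul_ne_zero hB' h1 h3

theorem poly_of_sp {z u : S} (h : Sp io z u) : ∃ P : Polynomial (MM io z),
    (P.map (MM io z).subtype).eval (ii u) = 0 ∧
    (Polynomial.derivative (P.map (MM io z).subtype)).eval (ii u) ≠ 0 := by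
  obtain ⟨G, h0, h1⟩ := h
  refine ⟨G.map (evM io z), ?_, ?_⟩
  · rw [map_evM, Polynomial.eval_map_apply, h0, map_zero]
  · rw [map_evM, Polynomial.derivative_map, Polynomial.eval_map_apply]
    exact fun h2 => h1 (ii_inj (by rw [h2, map_zero]))

theorem isSeparable_of_poly {K L : Type*} [Field K] [Field L] [Algebra K L] (x : L)
    (P : Polynomial K) (h0 : (P.map (algebraMap K L)).eval x = 0)
    (h1 : (Polynomial.derivative (P.map (algebraMap K L))).eval x ≠ 0) : IsSeparable K x := by
  have h0' : Polynomial.aeval x P = 0 := by rw [Polynomial.aeval_def, ← Polynomial.eval_map, h0]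
  have hP : P ≠ 0 := by
    rintro rfl
    simp at h1
  have hint : IsIntegral K x := IsAlgebraic.isIntegral ⟨P, hP, h0'⟩
  obtain ⟨R, hR⟩ := minpoly.dvd K x h0'
  unfold IsSeparable
  rw [Polynomial.separable_iff_derivative_ne_zero (minpoly.irreducible hint)]
  intro hd
  apply h1
  have hm : ((minpoly K x).map (algebraMap K L)).eval x = 0 := by
    rw [Polynomial.eval_map, ← Polynomial.aeval_def, minpoly.aeval]
  rw [Polynomial.derivative_map, hR, Polynomial.derivative_mul, hd, zero_mul, zero_add,
    Polynomial.map_mul, Polynomial.eval_mul, hm, zero_mul]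

theorem sp_iff {z u : S} : Sp io z u ↔ IsSeparable (MM io z) (ii u) := by
  constructor
  · intro h
    obtain ⟨P, h0, h1⟩ := poly_of_sp io h
    exact isSeparable_of_poly (ii u) P h0 h1
  · intro h
    refine sp_of_poly io (minpoly (MM io z) (ii u)) ?_ ?_
    · have := minpoly.aeval (MM io z) (ii u)
      rwa [Polynomial.aeval_def, ← Polynomial.eval_map] at this
    · have h2 := Polynomial.Separable.aeval_derivative_ne_zero h (minpoly.aeval (MM io z) (ii u))
      rw [Polynomial.aeval_def, ← Polynomial.eval_map, ← Polynomial.derivative_map] at h2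
      exact h2

theorem Sp.trans {z y u : S} (h1 : Sp io z y) (h2 : Sp io y u) : Sp io z u := by
  rw [sp_iff] at h1 ⊢
  obtain ⟨P, hP0, hP1⟩ := poly_of_sp io h2
  let E : IntermediateField (MM io z) (FractionRing S) :=
    separableClosure (MM io z) (FractionRing S)
  have hy : ii y ∈ E := mem_separableClosure_iff.2 h1
  have hle : MM io y ≤ E.toSubfield := by
    unfold MM
    rw [Subfield.closure_le]
    rintro x ⟨A, rfl⟩
    change ii (ev io y A) ∈ E
    induction A using Polynomial.induction_on with
    | C a =>
      have e : ev io y (Polynomial.C a) = ev io z (Polynomial.C a) := by simp [ev]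
      rw [e]
      exact E.algebraMap_mem ⟨_, ev_mem io z (Polynomial.C a)⟩
    | add A B hA hB =>
      rw [map_add, map_add]
      exact add_mem hA hB
    | monomial n a hA =>
      rw [pow_succ, ← mul_assoc, map_mul, map_mul]
      refine mul_mem hA ?_
      have : ev io y Polynomial.X = y := by simp [ev]
      rw [this]
      exact hy
  have hsep : IsSeparable E (ii u) := by
    let j : MM io y →+* E := (Subfield.inclusion hle : MM io y →+* E.toSubfield)
    have hj : (algebraMap E (FractionRing S)).comp j = (MM io y).subtype := by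
      ext x
      rfl
    refine isSeparable_of_poly (ii u) (P.map j) ?_ ?_
    · rw [Polynomial.map_map, hj]
      exact hP0
    · rw [Polynomial.map_map, hj]
      exact hP1
  have h3 : ii u ∈ separableClosure E (FractionRing S) := mem_separableClosure_iff.2 hsep
  have h4 : separableClosure E (FractionRing S) = ⊥ := separableClosure.separableClosure_eq_bot _ _
  rw [h4, IntermediateField.mem_bot] at h3
  obtain ⟨e, he⟩ := h3
  rw [← he]
  exact mem_separableClosure_iff.1 e.2

theorem Sp.map {z u : S} (h : Sp io z u) (φ : S →+* S) (ψ : F →+* F)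
    (hφ : Function.Injective φ) (hc : φ.comp io = io.comp ψ) : Sp io (φ z) (φ u) := by
  obtain ⟨G, h0, h1⟩ := h
  have e : (G.map (Polynomial.mapRingHom ψ)).map (ev io (φ z)) = (G.map (ev io z)).map φ := by
    rw [Polynomial.map_map, Polynomial.map_map]
    congr 1
    refine Polynomial.ringHom_ext' ?_ ?_
    · ext a
      have := RingHom.congr_fun hc a
      simpa [ev] using this.symm
    · simp [ev]
  refine ⟨G.map (Polynomial.mapRingHom ψ), ?_, ?_⟩
  · rw [e, Polynomial.eval_map_apply, h0, map_zero]
  · rw [e, Polynomial.derivative_map, Polynomial.eval_map_apply]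
    exact fun h2 => h1 (hφ (by rw [h2, map_zero]))

theorem al_sp [CharP S 2] {z g : S} (h : Al io z g) : ∃ i : ℕ, Sp io z (g ^ 2 ^ i) := by
  obtain ⟨G, h0, h1⟩ := h
  have : CharP (FractionRing S) 2 := charP_of_injective_ringHom (ii_inj (S := S)) 2
  have : CharP (MM io z) 2 := RingHom.charP (MM io z).subtype (MM io z).subtype_injective 2
  have : Fact (Nat.Prime 2) := ⟨Nat.prime_two⟩
  have : ExpChar (MM io z) 2 := ExpChar.prime Nat.prime_two
  have hP0 : G.map (evM io z) ≠ 0 := by
    intro h
    have h2 := map_evM io z G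
    rw [h, Polynomial.map_zero] at h2
    apply h0
    exact Polynomial.map_injective ii ii_inj (by rw [← h2, Polynomial.map_zero])
  have hP1 : Polynomial.aeval (ii g) (G.map (evM io z)) = 0 := by
    rw [Polynomial.aeval_def, ← Polynomial.eval_map]
    change ((G.map (evM io z)).map (MM io z).subtype).eval (ii g) = 0
    rw [map_evM, Polynomial.eval_map_apply, h1, map_zero]
  have hint : IsIntegral (MM io z) (ii g) :=
    IsAlgebraic.isIntegral ⟨_, hP0, hP1⟩
  obtain ⟨q, hq, i, hqi⟩ := (minpoly.irreducible hint).hasSeparableContraction 2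
  refine ⟨i, ?_⟩
  have hroot : Polynomial.aeval (ii (g ^ 2 ^ i)) q = 0 := by
    have := minpoly.aeval (MM io z) (ii g)
    rw [← hqi, Polynomial.expand_aeval] at this
    rw [map_pow]
    exact this
  refine sp_of_poly io q ?_ ?_
  · rwa [Polynomial.aeval_def, ← Polynomial.eval_map] at hroot
  · have h2 := Polynomial.Separable.aeval_derivative_ne_zero hq hroot
    rw [Polynomial.aeval_def, ← Polynomial.eval_map, ← Polynomial.derivative_map] at h2
    exact h2

theorem eval_swap (z g : S) (G : Polynomial (Polynomial F)) :
    (G.map (ev io z)).eval g = ((Polynomial.Bivariate.swap G).map (ev io g)).eval z := by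
  rw [Polynomial.eval_map, Polynomial.eval_map]
  have e : (Polynomial.eval₂RingHom (ev io z) g) = (Polynomial.eval₂RingHom (ev io g) z).comp
      (Polynomial.Bivariate.swap (R := F)).toRingEquiv.toRingHom := by
    refine Polynomial.ringHom_ext' (Polynomial.ringHom_ext' ?_ ?_) ?_
    · ext a
      simp [ev, Polynomial.Bivariate.swap_C_C]
    · simp [ev, Polynomial.Bivariate.swap_X]
    · simp [ev, Polynomial.Bivariate.swap_Y]
  exact RingHom.congr_fun e G

theorem exchange {z g : S} (h : Al io z g)
    (hg : ∀ A : Polynomial F, A ≠ 0 → ev io g A ≠ 0) : Al io g z := by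
  obtain ⟨G, h0, h1⟩ := h
  refine ⟨Polynomial.Bivariate.swap G, ?_, ?_⟩
  · intro h
    apply h0
    have h2 : Polynomial.Bivariate.swap G = 0 := by
      ext1 k
      by_contra hk
      rw [Polynomial.coeff_zero] at hk
      apply hg _ hk
      have := congrArg (fun p => Polynomial.coeff p k) h
      simpa [Polynomial.coeff_map] using this
    have h3 : G = 0 := by
      have := congrArg Polynomial.Bivariate.swap h2
      rwa [Polynomial.Bivariate.swap_swap_apply, map_zero] at this
    rw [h3, Polynomial.map_zero]
  · rw [← eval_swap, h1]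

end gen

end Pool.Agent.TH150.QB
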